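import Pool.Agent.Helper76.FT.GoalsG

/-!
# MP_39e2b7_an (S04375): packet FT-BILIP

`XF` is bi-Lipschitz on a small box.
-/

set_option autoImplicit false

namespace Pool.Agent.Helper77.FT

open Complex Set Filter Topology Pool.Agent.Helper76.FT

/-- Lipschitz estimate from boundedness -/
lemma lipF (F : ℂ × ℂ → ℂ) (y : ℂ × ℂ) (r MK : ℝ) (hr : 0 < r) (D : Set (ℂ × ℂ))
    (hD : Metric.ball y r ⊆ D) (hF : DifferentiableOn ℂ F D)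
    (hM : ∀ z ∈ D, ‖F z‖ ≤ MK) (u v : ℂ × ℂ)
    (hu : ‖u - y‖ < r / 4) (hv : ‖v - y‖ < r / 4) :
    ‖F u - F v‖ ≤ (4 * MK / r) * ‖u - v‖ := by
  have hsub : Metric.ball v (r / 2) ⊆ D := by
    refine Subset.trans ?_ hD
    intro z hz
    rw [Metric.mem_ball, dist_eq_norm] at hz ⊢
    calc ‖z - y‖ = ‖(z - v) + (v - y)‖ := by congr 1; abel
      _ ≤ ‖z - v‖ + ‖v - y‖ := norm_add_le _ _
      _ < r := by linarith
  have hmaps : MapsTo F (Metric.ball v (r / 2)) (Metric.closedBall (F v) (2 * MK)) := by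
    intro z hz
    rw [Metric.mem_closedBall, dist_eq_norm]
    have h1 := hM z (hsub hz)
    have h2 := hM v (hsub (Metric.mem_ball_self (by linarith)))
    calc ‖F z - F v‖ ≤ ‖F z‖ + ‖F v‖ := norm_sub_le _ _
      _ ≤ 2 * MK := by linarith
  have huv : u ∈ Metric.ball v (r / 2) := by
    rw [Metric.mem_ball, dist_eq_norm]
    calc ‖u - v‖ = ‖(u - y) - (v - y)‖ := by congr 1; abel
      _ ≤ ‖u - y‖ + ‖v - y‖ := norm_sub_le _ _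
      _ < r / 2 := by linarith
  have h := Complex.dist_le_div_mul_dist_of_mapsTo_ball (hF.mono hsub) hmaps huv
  rw [dist_eq_norm, dist_eq_norm] at h
  calc ‖F u - F v‖ ≤ 2 * MK / (r / 2) * ‖u - v‖ := h
    _ = (4 * MK / r) * ‖u - v‖ := by
      congr 1
      field_simp
      ring

/-- Lipschitz estimate for the velocity -/
lemma wLip (S : Sys) {w : ℂ → ℝ → ℂ} {ρ δ L M : ℝ} {c : ℂ} (hT : Tor S δ w ρ c)
    (hd : ∀ x : ℝ, ∀ t ∈ Icc (0:ℝ) 1, ‖dz w (x : ℂ) t‖ ≤ L)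
    (hM : ∀ x : ℝ, ∀ t ∈ Icc (0:ℝ) 1, ‖w (x : ℂ) t‖ ≤ M)
    (hder : ∀ z ∈ Str ρ, ∀ t ∈ Icc (0:ℝ) 1,
      HasDerivWithinAt (fun s => w z s) (-(w z t * dz w z t)) (Icc (0:ℝ) 1) t)
    (q q' s s' : ℝ) (hs : s ∈ Icc (0:ℝ) 1) (hs' : s' ∈ Icc (0:ℝ) 1) :
    ‖w (q : ℂ) s - w (q' : ℂ) s'‖ ≤ L * |q - q'| + M * L * |s - s'| := by
  have hstr : ∀ x : ℝ, (x : ℂ) ∈ Str ρ := by
    intro x
    show |((x : ℂ)).im| < ρ
    simpa using hT.hρ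
  have hopen : IsOpen (Str ρ) := by
    have : Continuous (fun z : ℂ => |z.im|) := by fun_prop
    exact isOpen_lt this continuous_const
  have hM0 : 0 ≤ M := le_trans (norm_nonneg _) (hM 0 0 ⟨le_refl _, zero_le_one⟩)
  have h1 : ‖w (q : ℂ) s - w (q' : ℂ) s‖ ≤ L * |q - q'| := by
    have hh : ∀ x ∈ (univ : Set ℝ),
        HasDerivWithinAt (fun y : ℝ => w (y : ℂ) s) (dz w (x : ℂ) s) univ x := by
      intro x _
      have hda : DifferentiableAt ℂ (fun z => w z s) (x : ℂ) :=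
        (hT.sh.hol s hs).differentiableAt (hopen.mem_nhds (hstr x))
      have := hda.hasDerivAt.comp_ofReal
      exact this.hasDerivWithinAt
    have := convex_univ.norm_image_sub_le_of_norm_hasDerivWithin_le hh
      (fun x _ => hd x s hs) (mem_univ q') (mem_univ q)
    simpa [Real.norm_eq_abs] using this
  have h2 : ‖w (q' : ℂ) s - w (q' : ℂ) s'‖ ≤ M * L * |s - s'| := by
    have hh : ∀ t ∈ Icc (0:ℝ) 1,
        HasDerivWithinAt (fun t' : ℝ => w (q' : ℂ) t') (-(w (q' : ℂ) t * dz w (q' : ℂ) t))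
          (Icc (0:ℝ) 1) t := fun t ht => hder _ (hstr q') t ht
    have hb : ∀ t ∈ Icc (0:ℝ) 1, ‖-(w (q' : ℂ) t * dz w (q' : ℂ) t)‖ ≤ M * L := by
      intro t ht
      rw [norm_neg, norm_mul]
      exact mul_le_mul (hM _ _ ht) (hd _ _ ht) (norm_nonneg _) hM0
    have := (convex_Icc (0:ℝ) 1).norm_image_sub_le_of_norm_hasDerivWithin_le hh hb hs' hs
    simpa [Real.norm_eq_abs] using this
  calc ‖w (q : ℂ) s - w (q' : ℂ) s'‖
      = ‖(w (q : ℂ) s - w (q' : ℂ) s) + (w (q' : ℂ) s - w (q' : ℂ) s')‖ := by congr 1; ring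
    _ ≤ _ := (norm_add_le _ _).trans (add_le_add h1 h2)

/-- estimates in one zone -/
lemma zone (q q' s s' τ t₀ A L1 LF M d : ℝ) (W W' Ω Ω' : ℂ)
    (hd : 0 ≤ d) (hA : 0 ≤ A) (hL : 0 ≤ L1) (hLF : 0 ≤ LF)
    (hq : |q - q'| ≤ d) (hs : |s - s'| ≤ d)
    (hτ : |τ - s'| ≤ A) (ht : |t₀ - τ| ≤ A) (hW : ‖W - W'‖ ≤ L1 * d) (hWM : ‖W‖ ≤ M)
    (hΩ : ‖Ω - Ω'‖ ≤ LF * max ‖(q + (τ - s) * W) - (q' + (τ - s') * W')‖ ‖W - W'‖) :
    ‖(q + (τ - s) * W + (t₀ - τ) * Ω) - (q' + (τ - s') * W' + (t₀ - τ) * Ω')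
        - (((q - q' : ℝ) : ℂ) - ((s - s' : ℝ) : ℂ) * W)‖
      ≤ (A * L1 + A * (LF * (1 + M + A * L1 + L1))) * d ∧
    ‖Ω - Ω'‖ ≤ LF * (1 + M + A * L1 + L1) * d := by
  have hM : 0 ≤ M := le_trans (norm_nonneg _) hWM
  have e1 : ((q : ℂ) + (τ - s) * W) - (q' + (τ - s') * W')
      = ((q - q' : ℝ) : ℂ) - ((s - s' : ℝ) : ℂ) * W + ((τ - s' : ℝ) : ℂ) * (W - W') := by
    push_cast; ring
  have n1 : ‖((τ - s' : ℝ) : ℂ) * (W - W')‖ ≤ A * (L1 * d) := by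
    rw [norm_mul, Complex.norm_real, Real.norm_eq_abs]
    exact mul_le_mul hτ hW (norm_nonneg _) hA
  have n2 : ‖((q : ℂ) + (τ - s) * W) - (q' + (τ - s') * W')‖ ≤ (1 + M + A * L1) * d := by
    rw [e1]
    have h1 : ‖((q - q' : ℝ) : ℂ)‖ ≤ d := by
      rw [Complex.norm_real, Real.norm_eq_abs]; exact hq
    have h2 : ‖((s - s' : ℝ) : ℂ) * W‖ ≤ d * M := by
      rw [norm_mul, Complex.norm_real, Real.norm_eq_abs]
      exact mul_le_mul hs hWM (norm_nonneg _) hd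
    calc _ ≤ ‖((q - q' : ℝ) : ℂ) - ((s - s' : ℝ) : ℂ) * W‖ + ‖((τ - s' : ℝ) : ℂ) * (W - W')‖ :=
          norm_add_le _ _
      _ ≤ (‖((q - q' : ℝ) : ℂ)‖ + ‖((s - s' : ℝ) : ℂ) * W‖)
          + ‖((τ - s' : ℝ) : ℂ) * (W - W')‖ := by gcongr; exact norm_sub_le _ _
      _ ≤ (d + d * M) + A * (L1 * d) := by gcongr
      _ = _ := by ring
  have n3 : ‖Ω - Ω'‖ ≤ LF * (1 + M + A * L1 + L1) * d := by
    refine hΩ.trans ?_
    rw [mul_assoc]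
    refine mul_le_mul_of_nonneg_left ?_ hLF
    refine max_le ?_ ?_
    · refine n2.trans ?_
      have : 0 ≤ L1 * d := mul_nonneg hL hd
      nlinarith
    · refine hW.trans ?_
      have : 0 ≤ (1 + M + A * L1) * d := by positivity
      nlinarith
  refine ⟨?_, n3⟩
  have e2 : ((q : ℂ) + (τ - s) * W + (t₀ - τ) * Ω) - (q' + (τ - s') * W' + (t₀ - τ) * Ω')
        - (((q - q' : ℝ) : ℂ) - ((s - s' : ℝ) : ℂ) * W)
      = ((τ - s' : ℝ) : ℂ) * (W - W') + ((t₀ - τ : ℝ) : ℂ) * (Ω - Ω') := by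
    push_cast; ring
  rw [e2]
  have n4 : ‖((t₀ - τ : ℝ) : ℂ) * (Ω - Ω')‖ ≤ A * (LF * (1 + M + A * L1 + L1) * d) := by
    rw [norm_mul, Complex.norm_real, Real.norm_eq_abs]
    exact mul_le_mul ht n3 (norm_nonneg _) hA
  calc _ ≤ _ := norm_add_le _ _
    _ ≤ A * (L1 * d) + A * (LF * (1 + M + A * L1 + L1) * d) := add_le_add n1 n4
    _ = _ := by ring

/-- expansion property of a pair of points -/
def PP (S : Sys) (w : ℂ → ℝ → ℂ) (t₀ h M e LΩ : ℝ) (z z' : ℝ × ℝ) : Prop :=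
  ∃ v : ℂ, h ≤ v.im ∧ ‖v‖ ≤ M ∧
    ‖XF S w t₀ z - XF S w t₀ z' - (((z.1 - z'.1 : ℝ) : ℂ) - ((z.2 - z'.2 : ℝ) : ℂ) * v)‖
      ≤ e * ‖z - z'‖ ∧
    ‖OmF S w z - OmF S w z'‖ ≤ LΩ * ‖z - z'‖

lemma PP.symm {S : Sys} {w : ℂ → ℝ → ℂ} {t₀ h M e LΩ : ℝ} {z z' : ℝ × ℝ}
    (H : PP S w t₀ h M e LΩ z z') : PP S w t₀ h M e LΩ z' z := by
  obtain ⟨v, h1, h2, h3, h4⟩ := H
  refine ⟨v, h1, h2, ?_, ?_⟩
  · rw [norm_sub_rev z' z, ← norm_neg]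
    refine le_of_eq_of_le ?_ h3
    congr 1
    push_cast
    ring
  · rw [norm_sub_rev z' z, norm_sub_rev]
    exact h4

lemma PP.trans {S : Sys} {w : ℂ → ℝ → ℂ} {t₀ h M e LΩ : ℝ} {z z' : ℝ × ℝ} {l : ℝ}
    (hl0 : 0 ≤ l) (hl1 : l ≤ 1)
    (H1 : PP S w t₀ h M e LΩ z (z + l • (z' - z)))
    (H2 : PP S w t₀ h M e LΩ (z + l • (z' - z)) z') : PP S w t₀ h M e LΩ z z' := by
  obtain ⟨v, h1, h2, h3, h4⟩ := H1
  obtain ⟨v', h1', h2', h3', h4'⟩ := H2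
  have hn1 : ‖z - (z + l • (z' - z))‖ = l * ‖z - z'‖ := by
    have : z - (z + l • (z' - z)) = l • (z - z') := by
      rw [smul_sub, smul_sub]; abel
    rw [this, norm_smul, Real.norm_eq_abs, abs_of_nonneg hl0]
  have hn2 : ‖(z + l • (z' - z)) - z'‖ = (1 - l) * ‖z - z'‖ := by
    have : (z + l • (z' - z)) - z' = (1 - l) • (z - z') := by
      rw [sub_smul, one_smul, smul_sub, smul_sub]; abel
    rw [this, norm_smul, Real.norm_eq_abs, abs_of_nonneg (by linarith)]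
  rw [hn1] at h3 h4
  rw [hn2] at h3' h4'
  have c1 : (z + l • (z' - z)).1 = z.1 + l * (z'.1 - z.1) := by simp
  have c2 : (z + l • (z' - z)).2 = z.2 + l * (z'.2 - z.2) := by simp
  rw [c1, c2] at h3 h3'
  set X := XF S w t₀ (z + l • (z' - z)) with hX
  refine ⟨(l : ℂ) * v + ((1 - l : ℝ) : ℂ) * v', ?_, ?_, ?_, ?_⟩
  · have : ((l : ℂ) * v + ((1 - l : ℝ) : ℂ) * v').im = l * v.im + (1 - l) * v'.im := by
      simp [Complex.add_im, Complex.mul_im]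
    rw [this]
    nlinarith
  · calc _ ≤ ‖(l : ℂ) * v‖ + ‖((1 - l : ℝ) : ℂ) * v'‖ := norm_add_le _ _
      _ = l * ‖v‖ + (1 - l) * ‖v'‖ := by
        rw [norm_mul, norm_mul, Complex.norm_real, Complex.norm_real, Real.norm_eq_abs,
          Real.norm_eq_abs, abs_of_nonneg hl0, abs_of_nonneg (by linarith : (0:ℝ) ≤ 1 - l)]
      _ ≤ M := by nlinarith
  · have e1 : XF S w t₀ z - XF S w t₀ z' - (((z.1 - z'.1 : ℝ) : ℂ)
          - ((z.2 - z'.2 : ℝ) : ℂ) * ((l : ℂ) * v + ((1 - l : ℝ) : ℂ) * v'))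
        = (XF S w t₀ z - X - (((z.1 - (z.1 + l * (z'.1 - z.1)) : ℝ) : ℂ)
            - ((z.2 - (z.2 + l * (z'.2 - z.2)) : ℝ) : ℂ) * v))
          + (X - XF S w t₀ z' - ((((z.1 + l * (z'.1 - z.1)) - z'.1 : ℝ) : ℂ)
            - (((z.2 + l * (z'.2 - z.2)) - z'.2 : ℝ) : ℂ) * v')) := by
      push_cast; ring
    rw [e1]
    calc _ ≤ _ := norm_add_le _ _
      _ ≤ e * (l * ‖z - z'‖) + e * ((1 - l) * ‖z - z'‖) := add_le_add h3 h3'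
      _ = _ := by ring
  · calc ‖OmF S w z - OmF S w z'‖
        = ‖(OmF S w z - OmF S w (z + l • (z' - z)))
          + (OmF S w (z + l • (z' - z)) - OmF S w z')‖ := by congr 1; ring
      _ ≤ _ := norm_add_le _ _
      _ ≤ LΩ * (l * ‖z - z'‖) + LΩ * ((1 - l) * ‖z - z'‖) := add_le_add h4 h4'
      _ = _ := by ring

/-- the final lower bound from the expansion property -/
lemma PP.lower {S : Sys} {w : ℂ → ℝ → ℂ} {t₀ h M e LΩ : ℝ} {z z' : ℝ × ℝ}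
    (h0 : 0 < h) (h1 : h ≤ 1) (hM : 0 ≤ M) (H : PP S w t₀ h M e LΩ z z') :
    (h / (1 + M) - e) * ‖z - z'‖ ≤ ‖XF S w t₀ z - XF S w t₀ z'‖ := by
  obtain ⟨v, hv, hvM, h3, -⟩ := H
  set E : ℂ := ((z.1 - z'.1 : ℝ) : ℂ) - ((z.2 - z'.2 : ℝ) : ℂ) * v with hE
  have hEim : E.im = -((z.2 - z'.2) * v.im) := by
    simp [hE, Complex.sub_im, Complex.mul_im]
  have hs : h * |z.2 - z'.2| ≤ ‖E‖ := by
    have := Complex.abs_im_le_norm E
    rw [hEim, abs_neg, abs_mul, abs_of_pos (lt_of_lt_of_le h0 hv)] at this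
    refine le_trans ?_ this
    rw [mul_comm]
    exact mul_le_mul_of_nonneg_left hv (abs_nonneg _)
  have hq : |z.1 - z'.1| ≤ ‖E‖ + M * |z.2 - z'.2| := by
    have e1 : ((z.1 - z'.1 : ℝ) : ℂ) = E + ((z.2 - z'.2 : ℝ) : ℂ) * v := by rw [hE]; ring
    have := norm_add_le E (((z.2 - z'.2 : ℝ) : ℂ) * v)
    rw [← e1, Complex.norm_real, Real.norm_eq_abs, norm_mul, Complex.norm_real,
      Real.norm_eq_abs] at this
    refine this.trans ?_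
    have : |z.2 - z'.2| * ‖v‖ ≤ M * |z.2 - z'.2| := by
      rw [mul_comm]; exact mul_le_mul_of_nonneg_right hvM (abs_nonneg _)
    linarith
  have hEz : h / (1 + M) * ‖z - z'‖ ≤ ‖E‖ := by
    have hn : ‖z - z'‖ = max |z.1 - z'.1| |z.2 - z'.2| := by
      rw [Prod.norm_def]; simp [Real.norm_eq_abs]
    rw [hn]
    have hpos : 0 < 1 + M := by linarith
    rw [div_mul_eq_mul_div, div_le_iff₀ hpos]
    rcases le_total |z.1 - z'.1| |z.2 - z'.2| with hc | hc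
    · rw [max_eq_right hc]
      nlinarith [norm_nonneg E]
    · rw [max_eq_left hc]
      have : h * |z.1 - z'.1| ≤ h * ‖E‖ + M * (h * |z.2 - z'.2|) := by nlinarith
      nlinarith [norm_nonneg E]
  have : ‖E‖ ≤ ‖XF S w t₀ z - XF S w t₀ z'‖ + e * ‖z - z'‖ := by
    calc ‖E‖ = ‖(XF S w t₀ z - XF S w t₀ z') - (XF S w t₀ z - XF S w t₀ z' - E)‖ := by
          congr 1; ring
      _ ≤ _ := norm_sub_le _ _
      _ ≤ _ := by linarith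
  linarith [sub_mul (h / (1 + M)) e ‖z - z'‖]

/-- constants -/
lemma consts {a h C1 LF M : ℝ} (ha0 : 0 < a) (ha : a ≤ 1) (h0 : 0 < h) (h1 : h ≤ 1)
    (hC1 : 0 ≤ C1) (hLF : 0 ≤ LF) (hM : 0 ≤ M) :
    (a * h ^ 3 * (C1 / h ^ 2)
      + a * h ^ 3 * (LF * (1 + M + a * h ^ 3 * (C1 / h ^ 2) + C1 / h ^ 2)))
      ≤ a * h * (C1 + LF * (1 + M + 2 * C1)) ∧
    LF * (1 + M + a * h ^ 3 * (C1 / h ^ 2) + C1 / h ^ 2) ≤ LF * (1 + M + 2 * C1) / h ^ 2 := by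
  have hh2 : 0 < h ^ 2 := by positivity
  have hh2' : h ^ 2 ≤ 1 := by nlinarith
  have e1 : a * h ^ 3 * (C1 / h ^ 2) = a * h * C1 := by field_simp
  have hb : 1 + M + a * h ^ 3 * (C1 / h ^ 2) + C1 / h ^ 2 ≤ (1 + M + 2 * C1) / h ^ 2 := by
    rw [e1, le_div_iff₀ hh2]
    have e2 : (1 + M + a * h * C1 + C1 / h ^ 2) * h ^ 2
        = (1 + M) * h ^ 2 + a * h * h ^ 2 * C1 + C1 := by field_simp
    rw [e2]
    have h3 : a * h * h ^ 2 ≤ 1 := by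
      have : a * h ≤ 1 := by nlinarith
      nlinarith [mul_pos ha0 h0]
    nlinarith
  have hb2 : LF * (1 + M + a * h ^ 3 * (C1 / h ^ 2) + C1 / h ^ 2)
      ≤ LF * (1 + M + 2 * C1) / h ^ 2 := by
    rw [mul_div_assoc]
    exact mul_le_mul_of_nonneg_left hb hLF
  refine ⟨?_, hb2⟩
  calc _ ≤ a * h ^ 3 * (C1 / h ^ 2) + a * h ^ 3 * (LF * (1 + M + 2 * C1) / h ^ 2) := by
        gcongr
    _ = _ := by field_simp

/-- pairs in a zone next to a kick -/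
lemma pairF (S : Sys) {w : ℂ → ℝ → ℂ} {ρ δ M C C1 LF MK a h t₀ x : ℝ} {c : ℂ}
    (hr : 0 < S.r) (hT : Tor S δ w ρ c)
    (hder : ∀ z ∈ Str ρ, ∀ t ∈ Icc (0:ℝ) 1,
      HasDerivWithinAt (fun s => w z s) (-(w z t * dz w z t)) (Icc (0:ℝ) 1) t)
    (hd : ∀ x : ℝ, ∀ t ∈ Icc (0:ℝ) 1, ‖dz w (x : ℂ) t‖ ≤ C / h ^ 2)
    (hwM : ∀ x : ℝ, ∀ t ∈ Icc (0:ℝ) 1, ‖w (x : ℂ) t‖ ≤ M)
    (hh : ∀ x : ℝ, ∀ t ∈ Icc (0:ℝ) 1, h ≤ (w (x : ℂ) t).im)
    (h0 : 0 < h) (h1 : h ≤ 1) (ha0 : 0 < a) (ha : a ≤ 1) (hM0 : 0 ≤ M) (hC0 : 0 ≤ C)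
    (hC1 : C1 = C * (1 + M)) (hLF : 4 * MK / S.r ≤ LF) (hLF0 : 0 ≤ LF)
    (hδ : δ ≤ S.r / 16) (ha3 : a * (16 * (1 + M + C1)) ≤ S.r)
    (τ l : ℝ) (hl : l ∈ Icc (0:ℝ) 1) (F : ℂ × ℂ → ℂ) (hF : DifferentiableOn ℂ F (S.Nb l S.r))
    (hFM : ∀ z ∈ S.Nb l S.r, ‖F z‖ ≤ MK) (htτ : |t₀ - τ| ≤ a * h ^ 3)
    (z z' : ℝ × ℝ) (hz1 : |z.1 - x| ≤ a * h ^ 3) (hz1' : |z'.1 - x| ≤ a * h ^ 3)
    (hz2 : |τ - z.2| ≤ a * h ^ 3) (hz2' : |τ - z'.2| ≤ a * h ^ 3)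
    (hσ : z.2 - τ + l ∈ Icc (0:ℝ) 1) (hσ' : z'.2 - τ + l ∈ Icc (0:ℝ) 1)
    (hO : OmF S w z = F ((z.1 : ℂ) + (τ - z.2) * w z.1 (z.2 - τ + l), w z.1 (z.2 - τ + l)))
    (hX : XF S w t₀ z = (z.1 : ℂ) + (τ - z.2) * w z.1 (z.2 - τ + l) + (t₀ - τ) * OmF S w z)
    (hO' : OmF S w z'
      = F ((z'.1 : ℂ) + (τ - z'.2) * w z'.1 (z'.2 - τ + l), w z'.1 (z'.2 - τ + l)))
    (hX' : XF S w t₀ z'
      = (z'.1 : ℂ) + (τ - z'.2) * w z'.1 (z'.2 - τ + l) + (t₀ - τ) * OmF S w z') :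
    PP S w t₀ h M (a * h * (C1 + LF * (1 + M + 2 * C1))) (LF * (1 + M + 2 * C1) / h ^ 2) z z' := by
  have hC10 : 0 ≤ C1 := by rw [hC1]; positivity
  have hh2 : 0 < h ^ 2 := by positivity
  have hA : a * h ^ 3 ≤ a := by
    have : h ^ 3 ≤ 1 := pow_le_one₀ h0.le h1
    nlinarith
  have hA0 : 0 ≤ a * h ^ 3 := by positivity
  have hL0 : 0 ≤ C / h ^ 2 := by positivity
  -- the ball
  have hball : ∀ y : ℝ × ℝ, |y.1 - x| ≤ a * h ^ 3 → |τ - y.2| ≤ a * h ^ 3 →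
      y.2 - τ + l ∈ Icc (0:ℝ) 1 →
      ‖(((y.1 : ℂ) + (τ - y.2) * w y.1 (y.2 - τ + l), w y.1 (y.2 - τ + l)) : ℂ × ℂ)
        - ((x : ℂ), (((w x l).re : ℝ) : ℂ))‖ < S.r / 4 := by
    intro y hy1 hy2 hy3
    rw [Prod.norm_def]
    refine max_lt ?_ ?_
    · show ‖(y.1 : ℂ) + (τ - y.2) * w y.1 (y.2 - τ + l) - x‖ < S.r / 4
      have e1 : (y.1 : ℂ) + (τ - y.2) * w y.1 (y.2 - τ + l) - x
          = ((y.1 - x : ℝ) : ℂ) + ((τ - y.2 : ℝ) : ℂ) * w y.1 (y.2 - τ + l) := by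
        push_cast; ring
      rw [e1]
      have n1 : ‖((y.1 - x : ℝ) : ℂ)‖ ≤ a := by
        rw [Complex.norm_real, Real.norm_eq_abs]; exact hy1.trans hA
      have n2 : ‖((τ - y.2 : ℝ) : ℂ) * w y.1 (y.2 - τ + l)‖ ≤ a * M := by
        rw [norm_mul, Complex.norm_real, Real.norm_eq_abs]
        exact mul_le_mul (hy2.trans hA) (hwM _ _ hy3) (norm_nonneg _) ha0.le
      have := norm_add_le ((y.1 - x : ℝ) : ℂ) (((τ - y.2 : ℝ) : ℂ) * w y.1 (y.2 - τ + l))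
      nlinarith
    · show ‖w y.1 (y.2 - τ + l) - (((w x l).re : ℝ) : ℂ)‖ < S.r / 4
      have n1 : ‖w y.1 (y.2 - τ + l) - w x l‖ ≤ a * C1 := by
        refine (wLip S hT hd hwM hder y.1 x (y.2 - τ + l) l hy3 hl).trans ?_
        have e1 : |y.2 - τ + l - l| = |τ - y.2| := by
          rw [abs_sub_comm τ y.2]; congr 1; ring
        rw [e1]
        calc C / h ^ 2 * |y.1 - x| + M * (C / h ^ 2) * |τ - y.2|
            ≤ C / h ^ 2 * (a * h ^ 3) + M * (C / h ^ 2) * (a * h ^ 3) := by gcongr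
          _ = a * h * C1 := by rw [hC1]; field_simp
          _ ≤ a * C1 := by
            have : a * h ≤ a := by nlinarith
            nlinarith
      have n2 : ‖w x l - (((w x l).re : ℝ) : ℂ)‖ ≤ δ := by
        have e1 : w x l - (((w x l).re : ℝ) : ℂ) = ((w x l).im : ℂ) * I := by
          apply Complex.ext <;> simp
        rw [e1, norm_mul, Complex.norm_I, mul_one, Complex.norm_real, Real.norm_eq_abs,
          abs_of_pos (hT.pos x l hl).1]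
        exact (hT.pos x l hl).2
      have n3 : ‖w y.1 (y.2 - τ + l) - (((w x l).re : ℝ) : ℂ)‖
          ≤ ‖w y.1 (y.2 - τ + l) - w x l‖ + ‖w x l - (((w x l).re : ℝ) : ℂ)‖ := by
        have := norm_add_le (w y.1 (y.2 - τ + l) - w x l) (w x l - (((w x l).re : ℝ) : ℂ))
        simpa using this
      nlinarith
  have hsub : Metric.ball (((x : ℂ), (((w x l).re : ℝ) : ℂ)) : ℂ × ℂ) S.r ⊆ S.Nb l S.r := by
    intro y hy
    rw [Metric.mem_ball, dist_eq_norm, Prod.norm_def, max_lt_iff] at hy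
    exact ⟨(x, (w x l).re), hT.reg x l hl, hy.1, hy.2⟩
  set d := ‖z - z'‖ with hdd
  have hn : d = max |z.1 - z'.1| |z.2 - z'.2| := by
    rw [hdd, Prod.norm_def]; simp [Real.norm_eq_abs]
  have hq : |z.1 - z'.1| ≤ d := by rw [hn]; exact le_max_left _ _
  have hs : |z.2 - z'.2| ≤ d := by rw [hn]; exact le_max_right _ _
  have hd0 : 0 ≤ d := norm_nonneg _
  have hW : ‖w z.1 (z.2 - τ + l) - w z'.1 (z'.2 - τ + l)‖ ≤ C1 / h ^ 2 * d := by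
    refine (wLip S hT hd hwM hder z.1 z'.1 _ _ hσ hσ').trans ?_
    have e1 : |z.2 - τ + l - (z'.2 - τ + l)| = |z.2 - z'.2| := by congr 1; ring
    rw [e1]
    calc C / h ^ 2 * |z.1 - z'.1| + M * (C / h ^ 2) * |z.2 - z'.2|
        ≤ C / h ^ 2 * d + M * (C / h ^ 2) * d := by gcongr
      _ = C1 / h ^ 2 * d := by rw [hC1]; ring
  have hΩ : ‖OmF S w z - OmF S w z'‖ ≤ LF * max
      ‖((z.1 : ℂ) + (τ - z.2) * w z.1 (z.2 - τ + l))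
        - (z'.1 + (τ - z'.2) * w z'.1 (z'.2 - τ + l))‖
      ‖w z.1 (z.2 - τ + l) - w z'.1 (z'.2 - τ + l)‖ := by
    rw [hO, hO']
    have := lipF F ((x : ℂ), (((w x l).re : ℝ) : ℂ)) S.r MK hr (S.Nb l S.r) hsub hF hFM _ _
      (hball z hz1 hz2 hσ) (hball z' hz1' hz2' hσ')
    refine this.trans ?_
    rw [Prod.norm_def]
    exact mul_le_mul_of_nonneg_right hLF (le_max_of_le_left (norm_nonneg _))
  obtain ⟨r1, r2⟩ := zone z.1 z'.1 z.2 z'.2 τ t₀ (a * h ^ 3) (C1 / h ^ 2) LF M d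
    (w z.1 (z.2 - τ + l)) (w z'.1 (z'.2 - τ + l)) (OmF S w z) (OmF S w z')
    hd0 hA0 (by positivity) hLF0 hq hs hz2' htτ hW (hwM _ _ hσ) hΩ
  obtain ⟨c1, c2⟩ := consts ha0 ha h0 h1 hC10 hLF0 hM0
  refine ⟨w z.1 (z.2 - τ + l), hh _ _ hσ, hwM _ _ hσ, ?_, ?_⟩
  · rw [hX, hX']
    exact r1.trans (mul_le_mul_of_nonneg_right c1 hd0)
  · exact r2.trans (mul_le_mul_of_nonneg_right c2 hd0)

/-- pairs in the middle zone -/
lemma pairM (S : Sys) {w : ℂ → ℝ → ℂ} {ρ δ M C C1 LF a h t₀ : ℝ} {c : ℂ}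
    (hT : Tor S δ w ρ c)
    (hder : ∀ z ∈ Str ρ, ∀ t ∈ Icc (0:ℝ) 1,
      HasDerivWithinAt (fun s => w z s) (-(w z t * dz w z t)) (Icc (0:ℝ) 1) t)
    (hd : ∀ x : ℝ, ∀ t ∈ Icc (0:ℝ) 1, ‖dz w (x : ℂ) t‖ ≤ C / h ^ 2)
    (hwM : ∀ x : ℝ, ∀ t ∈ Icc (0:ℝ) 1, ‖w (x : ℂ) t‖ ≤ M)
    (hh : ∀ x : ℝ, ∀ t ∈ Icc (0:ℝ) 1, h ≤ (w (x : ℂ) t).im)
    (h0 : 0 < h) (h1 : h ≤ 1) (ha0 : 0 < a) (ha : a ≤ 1) (hM0 : 0 ≤ M) (hC0 : 0 ≤ C)
    (hC1 : C1 = C * (1 + M)) (hLF1 : 1 ≤ LF)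
    (z z' : ℝ × ℝ) (hz2' : |t₀ - z'.2| ≤ a * h ^ 3)
    (hσ : z.2 ∈ Icc (0:ℝ) 1) (hσ' : z'.2 ∈ Icc (0:ℝ) 1)
    (hO : OmF S w z = w z.1 z.2) (hX : XF S w t₀ z = (z.1 : ℂ) + (t₀ - z.2) * w z.1 z.2)
    (hO' : OmF S w z' = w z'.1 z'.2)
    (hX' : XF S w t₀ z' = (z'.1 : ℂ) + (t₀ - z'.2) * w z'.1 z'.2) :
    PP S w t₀ h M (a * h * (C1 + LF * (1 + M + 2 * C1))) (LF * (1 + M + 2 * C1) / h ^ 2) z z' := by
  have hC10 : 0 ≤ C1 := by rw [hC1]; positivity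
  have hh2 : 0 < h ^ 2 := by positivity
  have hA0 : 0 ≤ a * h ^ 3 := by positivity
  have hL0 : 0 ≤ C / h ^ 2 := by positivity
  have hLF0 : 0 ≤ LF := zero_le_one.trans hLF1
  set d := ‖z - z'‖ with hdd
  have hn : d = max |z.1 - z'.1| |z.2 - z'.2| := by
    rw [hdd, Prod.norm_def]; simp [Real.norm_eq_abs]
  have hq : |z.1 - z'.1| ≤ d := by rw [hn]; exact le_max_left _ _
  have hs : |z.2 - z'.2| ≤ d := by rw [hn]; exact le_max_right _ _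
  have hd0 : 0 ≤ d := norm_nonneg _
  have hW : ‖w z.1 z.2 - w z'.1 z'.2‖ ≤ C1 / h ^ 2 * d := by
    refine (wLip S hT hd hwM hder z.1 z'.1 _ _ hσ hσ').trans ?_
    calc C / h ^ 2 * |z.1 - z'.1| + M * (C / h ^ 2) * |z.2 - z'.2|
        ≤ C / h ^ 2 * d + M * (C / h ^ 2) * d := by gcongr
      _ = C1 / h ^ 2 * d := by rw [hC1]; ring
  obtain ⟨r1, r2⟩ := zone z.1 z'.1 z.2 z'.2 t₀ t₀ (a * h ^ 3) (C1 / h ^ 2) LF M d
    (w z.1 z.2) (w z'.1 z'.2) (w z.1 z.2) (w z'.1 z'.2)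
    hd0 hA0 (by positivity) hLF0 hq hs hz2' (by simpa using hA0) hW (hwM _ _ hσ) (by
      have : ‖w z.1 z.2 - w z'.1 z'.2‖ ≤ max
        ‖((z.1 : ℂ) + (t₀ - z.2) * w z.1 z.2) - (z'.1 + (t₀ - z'.2) * w z'.1 z'.2)‖
        ‖w z.1 z.2 - w z'.1 z'.2‖ := le_max_right _ _
      nlinarith [norm_nonneg (w z.1 z.2 - w z'.1 z'.2)])
  obtain ⟨c1, c2⟩ := consts ha0 ha h0 h1 hC10 hLF0 hM0
  refine ⟨w z.1 z.2, hh _ _ hσ, hwM _ _ hσ, ?_, ?_⟩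
  · rw [hX, hX']
    refine le_of_eq_of_le ?_ (r1.trans (mul_le_mul_of_nonneg_right c1 hd0))
    congr 1
    ring
  · rw [hO, hO']
    exact r2.trans (mul_le_mul_of_nonneg_right c2 hd0)

/-! ### Formulas on the closed zones -/

lemma real_str {S : Sys} {w : ℂ → ℝ → ℂ} {ρ δ : ℝ} {c : ℂ} (hT : Tor S δ w ρ c) (x : ℝ) :
    (x : ℂ) ∈ Str ρ := by
  show |((x : ℂ)).im| < ρ
  simpa using hT.hρ

lemma formNeg (S : Sys) {w : ℂ → ℝ → ℂ} {ρ δ t₀ : ℝ} {c : ℂ} (hT : Tor S δ w ρ c)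
    (z : ℝ × ℝ) (h1 : -1 ≤ z.2) (h2 : z.2 ≤ 0) :
    OmF S w z = S.K ((z.1 : ℂ) + ((0:ℝ) - z.2) * w z.1 (z.2 - 0 + 1)) (w z.1 (z.2 - 0 + 1)) ∧
    XF S w t₀ z = (z.1 : ℂ) + ((0:ℝ) - z.2) * w z.1 (z.2 - 0 + 1) + (t₀ - (0:ℝ)) * OmF S w z := by
  rcases lt_or_eq_of_le h2 with h | h
  · have hf : Int.fract z.2 = z.2 + 1 := by
      have : ⌊z.2⌋ = -1 := by
        rw [Int.floor_eq_iff]; push_cast; constructor <;> linarith
      rw [← Int.self_sub_floor, this]; push_cast; ring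
    have hw : wt w z = w z.1 (z.2 - 0 + 1) := by rw [wt, hf, sub_zero]
    refine ⟨?_, ?_⟩
    · rw [OmF, if_pos h, hw]
      congr 1
      push_cast; ring
    · rw [XF, if_pos h, hw]
      push_cast; ring
  · have hw : wt w z = w z.1 0 := by rw [wt, h, Int.fract_zero]
    have hO : OmF S w z = w z.1 0 := by
      rw [OmF, if_neg (by linarith), if_pos (by linarith), hw]
    refine ⟨?_, ?_⟩
    · rw [hO, h, hT.kick _ (real_str hT z.1)]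
      simp
    · rw [hO, XF, if_neg (by linarith), if_pos (by linarith), hw, h]
      push_cast; ring

lemma formMid (S : Sys) (hS : S.Ok) {w : ℂ → ℝ → ℂ} {ρ δ t₀ : ℝ} {c : ℂ} (hT : Tor S δ w ρ c)
    (z : ℝ × ℝ) (h1 : 0 ≤ z.2) (h2 : z.2 ≤ 1) :
    OmF S w z = w z.1 z.2 ∧ XF S w t₀ z = (z.1 : ℂ) + (t₀ - z.2) * w z.1 z.2 := by
  rcases lt_or_eq_of_le h2 with h | h
  · have hf : Int.fract z.2 = z.2 := Int.fract_eq_self.2 ⟨h1, h⟩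
    have hw : wt w z = w z.1 z.2 := by rw [wt, hf]
    refine ⟨?_, ?_⟩
    · rw [OmF, if_neg (by linarith), if_pos h, hw]
    · rw [XF, if_neg (by linarith), if_pos h, hw]
  · have hw : wt w z = w z.1 0 := by rw [wt, h, Int.fract_one]
    have hO : OmF S w z = w z.1 z.2 := by
      rw [OmF, if_neg (by linarith), if_neg (by linarith), hw, h]
      have e1 : (z.1 : ℂ) + (1 - ((1:ℝ) : ℂ)) * w z.1 0 = z.1 := by push_cast; ring
      rw [e1, hT.kick _ (real_str hT z.1)]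
      exact hS.KiK _ (hT.nb _ (real_str hT z.1) 1 ⟨zero_le_one, le_refl _⟩)
    refine ⟨hO, ?_⟩
    rw [XF, if_neg (by linarith), if_neg (by linarith), hO, hw, h]
    push_cast; ring

lemma formPos (S : Sys) {w : ℂ → ℝ → ℂ} {t₀ : ℝ}
    (z : ℝ × ℝ) (h1 : 1 ≤ z.2) (h2 : z.2 < 2) :
    OmF S w z = S.Ki ((z.1 : ℂ) + ((1:ℝ) - z.2) * w z.1 (z.2 - 1 + 0)) (w z.1 (z.2 - 1 + 0)) ∧
    XF S w t₀ z = (z.1 : ℂ) + ((1:ℝ) - z.2) * w z.1 (z.2 - 1 + 0) + (t₀ - (1:ℝ)) * OmF S w z := by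
  have hf : Int.fract z.2 = z.2 - 1 := by
    have : ⌊z.2⌋ = 1 := by
      rw [Int.floor_eq_iff]; push_cast; constructor <;> linarith
    rw [← Int.self_sub_floor, this]; push_cast; ring
  have hw : wt w z = w z.1 (z.2 - 1 + 0) := by rw [wt, hf, add_zero]
  refine ⟨?_, ?_⟩
  · rw [OmF, if_neg (by linarith), if_neg (by linarith), hw]
    norm_num
  · rw [XF, if_neg (by linarith), if_neg (by linarith), hw]
    push_cast; ring

theorem ft_bilip (_h1 : GReg) (hTP : GTorP) (hSl : GSlope) (_h4 : GSign) : GBiLip := by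
  intro S hS
  obtain ⟨k0, M, hk0, hM0, hTP⟩ := hTP S hS
  obtain ⟨δ1, C, hδ1, hC, hSl⟩ := hSl S hS
  obtain ⟨MK, hMK1, hMK0⟩ := hS.Kbd
  have hr : 0 < S.r := hS.hr
  obtain ⟨C1, hC1⟩ : ∃ C1 : ℝ, C1 = C * (1 + M) := ⟨_, rfl⟩
  have hC10 : 0 < C1 := by rw [hC1]; positivity
  obtain ⟨LF, hLF1, hLF⟩ : ∃ LF : ℝ, 1 ≤ LF ∧ 4 * MK / S.r ≤ LF :=
    ⟨max 1 (4 * MK / S.r), le_max_left _ _, le_max_right _ _⟩
  have hLF0 : 0 ≤ LF := zero_le_one.trans hLF1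
  obtain ⟨Q, hQ⟩ : ∃ Q : ℝ, Q = C1 + LF * (1 + M + 2 * C1) := ⟨_, rfl⟩
  have hQ1 : 1 ≤ Q := by
    rw [hQ]
    nlinarith [mul_nonneg (sub_nonneg.2 hLF1) (by positivity : (0:ℝ) ≤ 1 + M + 2 * C1)]
  have hden : 0 < 2 * (1 + M) * Q := by positivity
  have hden' : 0 < 16 * (1 + M + C1) := by positivity
  obtain ⟨a, ha0, ha1, ha2, ha3⟩ : ∃ a : ℝ, 0 < a ∧ a ≤ 1 / 4 ∧ a * (2 * (1 + M) * Q) ≤ 1 ∧
      a * (16 * (1 + M + C1)) ≤ S.r := by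
    refine ⟨min (1 / 4) (min (1 / (2 * (1 + M) * Q)) (S.r / (16 * (1 + M + C1)))), ?_, ?_, ?_, ?_⟩
    · refine lt_min (by norm_num) (lt_min (by positivity) (by positivity))
    · exact min_le_left _ _
    · rw [← le_div_iff₀ hden]
      exact (min_le_right _ _).trans (min_le_left _ _)
    · rw [← le_div_iff₀ hden']
      exact (min_le_right _ _).trans (min_le_right _ _)
  refine ⟨min δ1 (S.r / 16), a, lt_min hδ1 (by positivity), ha0, by linarith, ?_⟩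
  intro δ ρ w c hδ hT h h0 h1 hh t₀ ht₀ x z z' hz1 hz2 hz1' hz2'
  obtain ⟨-, -, -, -, hder, -, hbd⟩ := hTP δ ρ w c hT
  have hwM : ∀ x : ℝ, ∀ t ∈ Icc (0:ℝ) 1, ‖w (x : ℂ) t‖ ≤ M := fun x t ht => (hbd x t ht).2.2.2.2.2
  have hd : ∀ x : ℝ, ∀ t ∈ Icc (0:ℝ) 1, ‖dz w (x : ℂ) t‖ ≤ C / h ^ 2 := by
    intro x t ht
    rw [le_div_iff₀ (by positivity)]
    refine le_trans ?_ (hSl δ ρ w c (hδ.trans (min_le_left _ _)) hT x t ht)
    have := hh x t ht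
    gcongr
  have hδ' : δ ≤ S.r / 16 := hδ.trans (min_le_right _ _)
  have hA : a * h ^ 3 ≤ 1 / 4 := by
    have : h ^ 3 ≤ 1 := pow_le_one₀ h0.le h1
    nlinarith
  have hA0 : 0 < a * h ^ 3 := by positivity
  -- pairs
  have hneg : ∀ y y' : ℝ × ℝ, |y.1 - x| ≤ a * h ^ 3 → |y.2 - t₀| ≤ a * h ^ 3 →
      |y'.1 - x| ≤ a * h ^ 3 → |y'.2 - t₀| ≤ a * h ^ 3 → y.2 ≤ 0 → y'.2 ≤ 0 →
      PP S w t₀ h M (a * h * (C1 + LF * (1 + M + 2 * C1))) (LF * (1 + M + 2 * C1) / h ^ 2)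
        y y' := by
    intro y y' b1 b2 b1' b2' c1 c2
    rw [abs_le] at b2 b2'
    obtain ⟨o1, o2⟩ := formNeg S (t₀ := t₀) hT y (by linarith [ht₀.1]) c1
    obtain ⟨o1', o2'⟩ := formNeg S (t₀ := t₀) hT y' (by linarith [ht₀.1]) c2
    refine pairF S hr hT hder hd hwM hh h0 h1 ha0 (by linarith) hM0.le hC.le hC1 hLF hLF0 hδ' ha3
      0 1 ⟨zero_le_one, le_refl _⟩ (fun p => S.K p.1 p.2) hS.Khol hMK1 ?_ y y' b1 b1' ?_ ?_ ?_ ?_
      o1 o2 o1' o2'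
    · rw [abs_le]; constructor <;> linarith [ht₀.1]
    · rw [abs_le]; constructor <;> linarith [ht₀.1]
    · rw [abs_le]; constructor <;> linarith [ht₀.1]
    · constructor <;> linarith [ht₀.1]
    · constructor <;> linarith [ht₀.1]
  have hpos : ∀ y y' : ℝ × ℝ, |y.1 - x| ≤ a * h ^ 3 → |y.2 - t₀| ≤ a * h ^ 3 →
      |y'.1 - x| ≤ a * h ^ 3 → |y'.2 - t₀| ≤ a * h ^ 3 → 1 ≤ y.2 → 1 ≤ y'.2 →
      PP S w t₀ h M (a * h * (C1 + LF * (1 + M + 2 * C1))) (LF * (1 + M + 2 * C1) / h ^ 2)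
        y y' := by
    intro y y' b1 b2 b1' b2' c1 c2
    rw [abs_le] at b2 b2'
    obtain ⟨o1, o2⟩ := formPos S (w := w) (t₀ := t₀) y c1 (by linarith [ht₀.2])
    obtain ⟨o1', o2'⟩ := formPos S (w := w) (t₀ := t₀) y' c2 (by linarith [ht₀.2])
    refine pairF S hr hT hder hd hwM hh h0 h1 ha0 (by linarith) hM0.le hC.le hC1 hLF hLF0 hδ' ha3
      1 0 ⟨le_refl _, zero_le_one⟩ (fun p => S.Ki p.1 p.2) hS.Kihol hMK0 ?_ y y' b1 b1' ?_ ?_ ?_ ?_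
      o1 o2 o1' o2'
    · rw [abs_le]; constructor <;> linarith [ht₀.2]
    · rw [abs_le]; constructor <;> linarith [ht₀.2]
    · rw [abs_le]; constructor <;> linarith [ht₀.2]
    · constructor <;> linarith [ht₀.2]
    · constructor <;> linarith [ht₀.2]
  have hmid : ∀ y y' : ℝ × ℝ, |y.1 - x| ≤ a * h ^ 3 → |y.2 - t₀| ≤ a * h ^ 3 →
      |y'.1 - x| ≤ a * h ^ 3 → |y'.2 - t₀| ≤ a * h ^ 3 → 0 ≤ y.2 → y.2 ≤ 1 → 0 ≤ y'.2 →
      y'.2 ≤ 1 →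
      PP S w t₀ h M (a * h * (C1 + LF * (1 + M + 2 * C1))) (LF * (1 + M + 2 * C1) / h ^ 2)
        y y' := by
    intro y y' b1 b2 b1' b2' c1 c2 c3 c4
    obtain ⟨o1, o2⟩ := formMid S hS (t₀ := t₀) hT y c1 c2
    obtain ⟨o1', o2'⟩ := formMid S hS (t₀ := t₀) hT y' c3 c4
    exact pairM S hT hder hd hwM hh h0 h1 ha0 (by linarith) hM0.le hC.le hC1 hLF1 y y'
      (by rw [abs_sub_comm]; exact b2') ⟨c1, c2⟩ ⟨c3, c4⟩ o1 o2 o1' o2'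
  -- all pairs with ordered times
  have hord : ∀ y y' : ℝ × ℝ, |y.1 - x| ≤ a * h ^ 3 → |y.2 - t₀| ≤ a * h ^ 3 →
      |y'.1 - x| ≤ a * h ^ 3 → |y'.2 - t₀| ≤ a * h ^ 3 → y.2 ≤ y'.2 →
      PP S w t₀ h M (a * h * (C1 + LF * (1 + M + 2 * C1))) (LF * (1 + M + 2 * C1) / h ^ 2)
        y y' := by
    intro y y' b1 b2 b1' b2' hyy
    have hcross : ∀ τ : ℝ, y.2 < τ → τ < y'.2 → ∃ l : ℝ, 0 ≤ l ∧ l ≤ 1 ∧
        (y + l • (y' - y)).2 = τ ∧ |(y + l • (y' - y)).1 - x| ≤ a * h ^ 3 ∧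
        |(y + l • (y' - y)).2 - t₀| ≤ a * h ^ 3 := by
      intro τ hτ1 hτ2
      have hpos : 0 < y'.2 - y.2 := by linarith
      refine ⟨(τ - y.2) / (y'.2 - y.2), by apply div_nonneg <;> linarith, ?_, ?_, ?_, ?_⟩
      · rw [div_le_one hpos]; linarith
      · show y.2 + (τ - y.2) / (y'.2 - y.2) * (y'.2 - y.2) = τ
        rw [div_mul_cancel₀ _ hpos.ne']; ring
      · set l := (τ - y.2) / (y'.2 - y.2) with hl
        have hl0 : 0 ≤ l := by apply div_nonneg <;> linarith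
        have hl1 : l ≤ 1 := by rw [hl, div_le_one hpos]; linarith
        show |y.1 + l * (y'.1 - y.1) - x| ≤ a * h ^ 3
        rw [abs_le] at b1 b1' ⊢
        constructor <;> nlinarith
      · have : (y + ((τ - y.2) / (y'.2 - y.2)) • (y' - y)).2 = τ := by
          show y.2 + (τ - y.2) / (y'.2 - y.2) * (y'.2 - y.2) = τ
          rw [div_mul_cancel₀ _ hpos.ne']; ring
        rw [this]
        rw [abs_le] at b2 b2' ⊢
        constructor <;> linarith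
    have hclose : y'.2 - y.2 ≤ 1 / 2 := by
      rw [abs_le] at b2 b2'; linarith
    by_cases c1 : y'.2 ≤ 0
    · exact hneg y y' b1 b2 b1' b2' (by linarith) c1
    push Not at c1
    by_cases c2 : 1 ≤ y.2
    · exact hpos y y' b1 b2 b1' b2' c2 (by linarith)
    push Not at c2
    by_cases c3 : y.2 < 0
    · obtain ⟨l, l0, l1, e1, e2, e3⟩ := hcross 0 c3 c1
      exact PP.trans l0 l1
        (hneg _ _ b1 b2 e2 e3 c3.le e1.le)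
        (hmid _ _ e2 e3 b1' b2' e1.ge (by rw [e1]; exact zero_le_one) c1.le (by linarith))
    push Not at c3
    by_cases c4 : y'.2 ≤ 1
    · exact hmid y y' b1 b2 b1' b2' c3 c2.le c1.le c4
    push Not at c4
    obtain ⟨l, l0, l1, e1, e2, e3⟩ := hcross 1 c2 c4
    exact PP.trans l0 l1
      (hmid _ _ b1 b2 e2 e3 c3 c2.le (by rw [e1]; exact zero_le_one) e1.le)
      (hpos _ _ e2 e3 b1' b2' e1.ge c4.le)
  have hPP : PP S w t₀ h M (a * h * (C1 + LF * (1 + M + 2 * C1)))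
      (LF * (1 + M + 2 * C1) / h ^ 2) z z' := by
    rcases le_total z.2 z'.2 with hc | hc
    · exact hord z z' hz1 hz2 hz1' hz2' hc
    · exact (hord z' z hz1' hz2' hz1 hz2 hc).symm
  rw [← hQ] at hPP
  refine ⟨?_, ?_⟩
  · refine le_trans ?_ (hPP.lower h0 h1 hM0.le)
    refine mul_le_mul_of_nonneg_right ?_ (norm_nonneg _)
    have hM1 : 0 < 1 + M := by linarith
    have e1 : a * h * Q ≤ h / (1 + M) / 2 := by
      rw [div_div, le_div_iff₀ (by positivity)]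
      nlinarith
    have e2 : a * h ≤ h / (1 + M) / 2 := by
      refine le_trans ?_ e1
      nlinarith [mul_pos ha0 h0]
    linarith
  · obtain ⟨v, -, -, -, h4⟩ := hPP
    have hh2 : 0 < h ^ 2 := by positivity
    have h5 : a * h ^ 2 * ‖OmF S w z - OmF S w z'‖
        ≤ a * h ^ 2 * (LF * (1 + M + 2 * C1) / h ^ 2 * ‖z - z'‖) :=
      mul_le_mul_of_nonneg_left h4 (by positivity)
    refine h5.trans ?_
    have e1 : a * h ^ 2 * (LF * (1 + M + 2 * C1) / h ^ 2 * ‖z - z'‖)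
        = a * (LF * (1 + M + 2 * C1)) * ‖z - z'‖ := by field_simp
    rw [e1]
    have e2 : a * (LF * (1 + M + 2 * C1)) ≤ 1 := by
      have h6 : LF * (1 + M + 2 * C1) ≤ Q := by rw [hQ]; linarith
      have h7 : a * Q ≤ 1 := by
        have : a * Q * 1 ≤ a * Q * (2 * (1 + M)) := by
          have : 0 ≤ a * Q := by positivity
          nlinarith
        nlinarith
      nlinarith
    nlinarith [norm_nonneg (z - z')]

end Pool.Agent.Helper77.FT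

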