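import Pool.Agent.Helper76.FT.GoalsS
import Pool.Agent.Helper37.Fol.Jac

/-!
# MP_39e2b7_an (S04375): packet FT-DISCR

No conjugate points, forward and backward.
-/

set_option autoImplicit false

namespace Pool.Agent.Helper77.FT

open Set Filter Topology Pool.Agent.Helper37.FTM

/-- forward version -/
lemma discr_fwd {F : ℝ × ℝ → ℝ × ℝ} {U : ℝ → ℝ → ℝ} (h : Fol0 F U) (x v : ℕ → ℝ × ℝ)
    (hx : ∀ n, x (n + 1) = F (x n)) (hv : ∀ n, v (n + 1) = fderiv ℝ F (x n) (v n))
    (h0 : (v 0).1 ≤ 0) (h1 : 0 ≤ (v 1).1) (hne : ¬ ((v 0).1 = 0 ∧ (v 1).1 = 0)) (n : ℕ) :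
    0 < (v (n + 2)).1 := by
  have ex : ∀ n, x n = F^[n] (x 0) := by
    intro n
    induction n with
    | zero => rfl
    | succ n ih => rw [hx, ih, Function.iterate_succ_apply']
  have ev : ∀ n, v n = fderiv ℝ (F^[n]) (x 0) (v 0) := by
    intro n
    induction n with
    | zero => rw [Function.iterate_zero, fderiv_id]; rfl
    | succ n ih =>
      rw [hv, ih, h.fderiv_iter_succ, ex n]; rfl
  have hv1 : v 1 = fderiv ℝ F (x 0) (v 0) := hv 0
  have hv0 : v 0 ≠ 0 := by
    intro e
    apply hne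
    rw [hv1, e]
    simp
  rw [ev (n + 2)]
  exact h.jac_pos hv0 h0 (by rw [← hv1]; exact h1) n

theorem ft_discr : Pool.Agent.Helper76.FT.GDiscR := by
  intro F U h x v hx hv h0 h1 hne
  constructor
  · intro n hn
    obtain ⟨k, rfl⟩ : ∃ k : ℕ, n = k + 2 := ⟨(n - 2).toNat, by omega⟩
    have := discr_fwd h (fun k : ℕ => x k) (fun k : ℕ => v k)
      (fun k => by have := hx k; push_cast; exact this)
      (fun k => by have := hv k; push_cast; exact this)
      (by simpa using h0) (by simpa using h1) (by simpa using hne) k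
    simpa using this
  · intro n hn
    obtain ⟨k, rfl⟩ : ∃ k : ℕ, n = 1 - ((k : ℤ) + 2) := ⟨(-1 - n).toNat, by omega⟩
    have hRR : ∀ z : ℝ × ℝ, Rx (Rx z) = z := fun z => by ext <;> simp [Rx]
    have hR1 : ∀ z : ℝ × ℝ, (Rx z).1 = -z.1 := fun z => by simp [Rx]
    have hxx : ∀ k : ℕ, x (1 - (k : ℤ)) = F (x (1 - ((k : ℤ) + 1))) := by
      intro k
      have := hx (1 - ((k : ℤ) + 1))
      rw [← this]; congr 1; ring
    have hvv : ∀ k : ℕ, v (1 - (k : ℤ))
        = fderiv ℝ F (x (1 - ((k : ℤ) + 1))) (v (1 - ((k : ℤ) + 1))) := by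
      intro k
      have := hv (1 - ((k : ℤ) + 1))
      rw [← this]; congr 1; ring
    have hFi : ∀ k : ℕ, Fi F (x (1 - (k : ℤ))) = x (1 - ((k : ℤ) + 1)) := by
      intro k
      rw [hxx k, h.Fi_F]
    have := discr_fwd h.fol0_TF (fun k : ℕ => Rx (x (1 - (k : ℤ))))
      (fun k : ℕ => Rx (v (1 - (k : ℤ))))
      (fun k => by
        have e : ∀ z, TF F z = Rx (Fi F (Rx z)) := fun z => rfl
        rw [e, hRR, hFi]
        push_cast; rfl)
      (fun k => by
        rw [(h.hasFDerivAt_TF _).fderiv]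
        simp only [ContinuousLinearMap.comp_apply, hRR, hFi]
        push_cast
        congr 1
        have e1 : v (1 - (k : ℤ)) = h.dE (x (1 - ((k : ℤ) + 1))) (v (1 - ((k : ℤ) + 1))) := by
          rw [hvv k, ← h.coe_dE]; rfl
        rw [e1]
        simp)
      (by
        simp only [hR1]
        simpa using h1)
      (by
        simp only [hR1]
        simpa using h0)
      (by
        simp only [hR1]
        intro hh
        apply hne
        obtain ⟨a, b⟩ := hh
        simp at a b
        exact ⟨b, a⟩) k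
    simp only [hR1] at this
    push_cast at this
    linarith

end Pool.Agent.Helper77.FT

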